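import Pool.Agent.TH636.BC.Cd

/-!
# The Gödel numbers of the logical axioms are a primitive recursive set
-/

set_option autoImplicit false

namespace Pool.Agent.TH955.J1547

open Pool.Agent.TH672 Pool.Agent.TH636.BC

/-! ### Codes -/

/-- the tag -/
def tg (n : ℕ) : ℕ := n.unpair.1

/-- the argument -/
def ar (n : ℕ) : ℕ := n.unpair.2

/-- first component of the argument -/
def c1 (n : ℕ) : ℕ := (ar n).unpair.1

/-- second component of the argument -/
def c2 (n : ℕ) : ℕ := (ar n).unpair.2

@[simp] theorem tg_pair (a b : ℕ) : tg (Nat.pair a b) = a := by simp [tg]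
@[simp] theorem ar_pair (a b : ℕ) : ar (Nat.pair a b) = b := by simp [ar]
@[simp] theorem c1_pair (a b c : ℕ) : c1 (Nat.pair a (Nat.pair b c)) = b := by simp [c1]
@[simp] theorem c2_pair (a b c : ℕ) : c2 (Nat.pair a (Nat.pair b c)) = c := by simp [c2]

theorem lt_pair {a : ℕ} (b : ℕ) (ha : 1 ≤ a) : b < Nat.pair a b := by
  unfold Nat.pair
  split_ifs with h
  · nlinarith
  · nlinarith

theorem lt_left {k u v : ℕ} (hk : 1 ≤ k) : u < Nat.pair k (Nat.pair u v) :=
  lt_of_le_of_lt (Nat.left_le_pair u v) (lt_pair _ hk)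

theorem lt_right {k u v : ℕ} (hk : 1 ≤ k) : v < Nat.pair k (Nat.pair u v) :=
  lt_of_le_of_lt (Nat.right_le_pair u v) (lt_pair _ hk)

/-! ### Recursion over the two components -/

/-- course of values recursion with the two components -/
def fold {α σ : Type} [Inhabited σ] (step : α → ℕ → σ → σ → σ) (a : α) (n : ℕ) : σ :=
  step a n (if _h : c1 n < n then fold step a (c1 n) else default)
    (if _h : c2 n < n then fold step a (c2 n) else default)
termination_by n

theorem fold_pair {α σ : Type} [Inhabited σ] (step : α → ℕ → σ → σ → σ) (a : α) {k u v : ℕ}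
    (hk : 1 ≤ k) : fold step a (Nat.pair k (Nat.pair u v)) =
      step a (Nat.pair k (Nat.pair u v)) (fold step a u) (fold step a v) := by
  rw [fold]
  simp [lt_left hk, lt_right hk]

theorem fold_primrec {α σ : Type} [Primcodable α] [Primcodable σ] [Inhabited σ]
    (step : α → ℕ → σ → σ → σ)
    (h : Primrec fun x : (α × ℕ) × (σ × σ) => step x.1.1 x.1.2 x.2.1 x.2.2) :
    Primrec₂ (fold step) := by
  refine Primrec.nat_strong_rec (fold step)
    (g := fun a l => some (step a l.length ((l[c1 l.length]?).getD default)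
      ((l[c2 l.length]?).getD default))) ?_ ?_
  · have hl : Primrec fun x : α × List σ => x.2.length := Primrec.list_length.comp Primrec.snd
    have har : Primrec ar := Primrec.snd.comp Primrec.unpair
    have hc1 : Primrec c1 := Primrec.fst.comp (Primrec.unpair.comp har)
    have hc2 : Primrec c2 := Primrec.snd.comp (Primrec.unpair.comp har)
    have h1 : Primrec fun x : α × List σ => (x.2[c1 x.2.length]?).getD default :=
      Primrec.option_getD_default.comp (Primrec.list_getElem?.comp Primrec.snd (hc1.comp hl))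
    have h2 : Primrec fun x : α × List σ => (x.2[c2 x.2.length]?).getD default :=
      Primrec.option_getD_default.comp (Primrec.list_getElem?.comp Primrec.snd (hc2.comp hl))
    exact Primrec.option_some.comp (h.comp (Primrec.pair (Primrec.pair Primrec.fst hl)
      (Primrec.pair h1 h2)))
  · intro a n
    simp only [List.length_map, List.length_range]
    congr 1
    rw [fold]
    congr 1
    · by_cases h1 : c1 n < n
      · simp [h1]
      · simp [h1]
    · by_cases h1 : c2 n < n
      · simp [h1]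
      · simp [h1]

/-! ### Composition lemmas -/

section comp

variable {β : Type} [Primcodable β]

theorem p_tg {f : β → ℕ} (h : Primrec f) : Primrec fun x => tg (f x) :=
  Primrec.fst.comp (Primrec.unpair.comp h)

theorem p_ar {f : β → ℕ} (h : Primrec f) : Primrec fun x => ar (f x) :=
  Primrec.snd.comp (Primrec.unpair.comp h)

theorem p_c1 {f : β → ℕ} (h : Primrec f) : Primrec fun x => c1 (f x) :=
  Primrec.fst.comp (Primrec.unpair.comp (p_ar h))

theorem p_c2 {f : β → ℕ} (h : Primrec f) : Primrec fun x => c2 (f x) :=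
  Primrec.snd.comp (Primrec.unpair.comp (p_ar h))

/-- first component -/
def u1 (n : ℕ) : ℕ := n.unpair.1

/-- second component -/
def u2 (n : ℕ) : ℕ := n.unpair.2

theorem p_u1 {f : β → ℕ} (h : Primrec f) : Primrec fun x => u1 (f x) :=
  Primrec.fst.comp (Primrec.unpair.comp h)

theorem p_u2 {f : β → ℕ} (h : Primrec f) : Primrec fun x => u2 (f x) :=
  Primrec.snd.comp (Primrec.unpair.comp h)

theorem p_pair {f g : β → ℕ} (hf : Primrec f) (hg : Primrec g) :
    Primrec fun x => Nat.pair (f x) (g x) := Primrec₂.natPair.comp hf hg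

/-- equality of numbers as a Boolean -/
def eb (a b : ℕ) : Bool := decide (a = b)

@[simp] theorem eb_true (a b : ℕ) : eb a b = true ↔ a = b := by simp [eb]

@[simp] theorem eb_false (a b : ℕ) : eb a b = false ↔ a ≠ b := by simp [eb]

@[simp] theorem eb_self (a : ℕ) : eb a a = true := by simp

theorem p_eb {f g : β → ℕ} (hf : Primrec f) (hg : Primrec g) :
    Primrec fun x => eb (f x) (g x) := (Primrec.eq (α := ℕ)).decide.comp hf hg

theorem p_and {f g : β → Bool} (hf : Primrec f) (hg : Primrec g) :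
    Primrec fun x => (f x && g x) := Primrec.and.comp hf hg

theorem p_or {f g : β → Bool} (hf : Primrec f) (hg : Primrec g) :
    Primrec fun x => (f x || g x) := Primrec.or.comp hf hg

theorem p_not {f : β → Bool} (hf : Primrec f) : Primrec fun x => (! f x) := Primrec.not.comp hf

theorem p_cond {σ : Type} [Primcodable σ] {c : β → Bool} {f g : β → σ} (hc : Primrec c)
    (hf : Primrec f) (hg : Primrec g) : Primrec fun x => cond (c x) (f x) (g x) :=
  Primrec.cond hc hf hg

theorem p_fst {γ δ : Type} [Primcodable γ] [Primcodable δ] {f : β → γ × δ} (h : Primrec f) :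
    Primrec fun x => (f x).1 := Primrec.fst.comp h

theorem p_snd {γ δ : Type} [Primcodable γ] [Primcodable δ] {f : β → γ × δ} (h : Primrec f) :
    Primrec fun x => (f x).2 := Primrec.snd.comp h

theorem p_mk {γ δ : Type} [Primcodable γ] [Primcodable δ] {f : β → γ} {g : β → δ}
    (hf : Primrec f) (hg : Primrec g) : Primrec fun x => (f x, g x) := Primrec.pair hf hg

end comp

theorem p_var {β : Type} [Primcodable β] : Primrec fun x : β => x := Primrec.id

theorem p_impN' {β : Type} [Primcodable β] {f g : β → ℕ} (hf : Primrec f) (hg : Primrec g) :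
    Primrec fun x => Nat.pair 8 (Nat.pair (f x) (g x)) := p_pair (Primrec.const 8) (p_pair hf hg)


/-! ### Formulas -/

/-- code of an implication -/
def impN (a b : ℕ) : ℕ := Nat.pair 8 (Nat.pair a b)

/-- code of a universal formula -/
def allN (x a : ℕ) : ℕ := Nat.pair 9 (Nat.pair x a)

theorem p_impN {β : Type} [Primcodable β] {f g : β → ℕ} (hf : Primrec f) (hg : Primrec g) :
    Primrec fun x => impN (f x) (g x) := p_pair (Primrec.const 8) (p_pair hf hg)

theorem p_allN {β : Type} [Primcodable β] {f g : β → ℕ} (hf : Primrec f) (hg : Primrec g) :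
    Primrec fun x => allN (f x) (g x) := p_pair (Primrec.const 9) (p_pair hf hg)

/-- step for `isF` -/
def isFs (_ : ℕ) (n : ℕ) (b1 b2 : Bool) : Bool :=
  cond (eb (tg n) 1) (eb (ar n) 0)
    (cond (eb (tg n) 2 || (eb (tg n) 3 || (eb (tg n) 4 || (eb (tg n) 5 || (eb (tg n) 6 ||
      eb (tg n) 7))))) true
      (cond (eb (tg n) 8) (b1 && b2) (cond (eb (tg n) 9) b2 false)))

/-- being the Gödel number of a formula -/
def isF (n : ℕ) : Bool := fold isFs 0 n

theorem isF_primrec : Primrec isF := by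
  have h := fold_primrec isFs (by unfold isFs; repeat' (with_reducible (first | assumption | exact p_var | apply p_cond | apply p_and | apply p_or | apply p_not | apply p_eb | apply p_tg | apply p_ar | apply p_c1 | apply p_c2 | apply p_u1 | apply p_u2 | apply p_pair | apply p_fst | apply p_snd | exact Primrec.const _)))
  exact h.comp (Primrec.const 0) Primrec.id

theorem isF_gn : ∀ φ : Fml, isF (gn φ) = true := by
  intro φ
  induction φ with
  | bot => unfold isF gn; rw [fold]; simp [isFs]
  | eq x y => unfold isF gn; rw [fold]; simp [isFs]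
  | zero x => unfold isF gn; rw [fold]; simp [isFs]
  | succ x y => unfold isF gn; rw [fold]; simp [isFs]
  | add x y z => unfold isF gn; rw [fold]; simp [isFs]
  | mul x y z => unfold isF gn; rw [fold]; simp [isFs]
  | op i a b c d => unfold isF gn; rw [fold]; simp [isFs]
  | imp φ ψ ih1 ih2 =>
    unfold isF at *
    rw [gn, fold_pair _ _ (by norm_num), ih1, ih2]
    simp [isFs]
  | all x φ ih =>
    unfold isF at *
    rw [gn, fold_pair _ _ (by norm_num), ih]
    simp [isFs]


theorem unpair_ar (n : ℕ) : Nat.pair (tg n) (ar n) = n := Nat.pair_unpair n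

theorem pair_c (n : ℕ) : Nat.pair (c1 n) (c2 n) = ar n := Nat.pair_unpair (ar n)

theorem u_eq (n : ℕ) : Nat.pair (u1 n) (u2 n) = n := Nat.pair_unpair n

@[simp] theorem u1_pair (a b : ℕ) : u1 (Nat.pair a b) = a := by simp [u1]
@[simp] theorem u2_pair (a b : ℕ) : u2 (Nat.pair a b) = b := by simp [u2]

theorem isF_gn' : ∀ n, isF n = true → ∃ φ : Fml, n = gn φ := by
  intro n
  induction n using Nat.strong_induction_on with
  | _ n ih =>
  intro h
  have e : n = Nat.pair (tg n) (Nat.pair (c1 n) (c2 n)) := by rw [pair_c, unpair_ar]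
  have hn : ∀ k, 1 ≤ k → tg n = k → c1 n < n ∧ c2 n < n := by
    intro k hk h1
    have e2 := e
    rw [h1] at e2
    constructor
    · conv_rhs => rw [e2]
      exact lt_left hk
    · conv_rhs => rw [e2]
      exact lt_right hk
  unfold isF at h
  rw [fold, isFs] at h
  by_cases h1 : tg n = 1
  · simp [h1] at h
    refine ⟨.bot, ?_⟩
    rw [gn, ← unpair_ar n, h1, h]
  by_cases h2 : tg n = 2
  · refine ⟨.eq (c1 n) (c2 n), ?_⟩
    rw [gn, pair_c, ← h2, unpair_ar]
  by_cases h3 : tg n = 3
  · refine ⟨.zero (ar n), ?_⟩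
    rw [gn, ← h3, unpair_ar]
  by_cases h4 : tg n = 4
  · refine ⟨.succ (c1 n) (c2 n), ?_⟩
    rw [gn, pair_c, ← h4, unpair_ar]
  by_cases h5 : tg n = 5
  · refine ⟨.add (c1 n) (u1 (c2 n)) (u2 (c2 n)), ?_⟩
    rw [gn, u_eq, pair_c, ← h5, unpair_ar]
  by_cases h6 : tg n = 6
  · refine ⟨.mul (c1 n) (u1 (c2 n)) (u2 (c2 n)), ?_⟩
    rw [gn, u_eq, pair_c, ← h6, unpair_ar]
  by_cases h7 : tg n = 7
  · refine ⟨.op (c1 n) (u1 (c2 n)) (u1 (u2 (c2 n))) (u1 (u2 (u2 (c2 n)))) (u2 (u2 (u2 (c2 n)))),
      ?_⟩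
    rw [gn, u_eq, u_eq, u_eq, pair_c, ← h7, unpair_ar]
  by_cases h8 : tg n = 8
  · obtain ⟨l1, l2⟩ := hn 8 (by norm_num) h8
    simp [h8, eb, l1, l2] at h
    obtain ⟨φ, hφ⟩ := ih _ l1 h.1
    obtain ⟨ψ, hψ⟩ := ih _ l2 h.2
    refine ⟨.imp φ ψ, ?_⟩
    rw [gn, ← hφ, ← hψ, pair_c, ← h8, unpair_ar]
  by_cases h9 : tg n = 9
  · obtain ⟨l1, l2⟩ := hn 9 (by norm_num) h9
    simp [h9, eb, l2] at h
    obtain ⟨φ, hφ⟩ := ih _ l2 h
    refine ⟨.all (c1 n) φ, ?_⟩
    rw [gn, ← hφ, pair_c, ← h9, unpair_ar]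
  simp [eb, h1, h2, h3, h4, h5, h6, h7, h8, h9] at h

theorem isF_iff (n : ℕ) : isF n = true ↔ ∃ φ : Fml, n = gn φ :=
  ⟨isF_gn' n, fun ⟨φ, h⟩ => h ▸ isF_gn φ⟩

theorem pair_inj {a b c d : ℕ} (h : Nat.pair a b = Nat.pair c d) : a = c ∧ b = d :=
  Nat.pair_eq_pair.1 h

theorem gn_inj : ∀ φ ψ : Fml, gn φ = gn ψ → φ = ψ := by
  intro φ
  induction φ with
  | imp φ1 φ2 ih1 ih2 =>
    intro ψ h
    cases ψ with
    | imp ψ1 ψ2 =>
      simp only [gn, Nat.pair_eq_pair, true_and] at h
      rw [ih1 _ h.1, ih2 _ h.2]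
    | _ => simp [gn, Nat.pair_eq_pair] at h
  | all x φ ih =>
    intro ψ h
    cases ψ with
    | all y ψ =>
      simp only [gn, Nat.pair_eq_pair, true_and] at h
      rw [ih _ h.2, h.1]
    | _ => simp [gn, Nat.pair_eq_pair] at h
  | _ =>
    intro ψ h
    cases ψ <;> simp_all [gn, Nat.pair_eq_pair]

/-! ### Free variables, substitution -/

/-- step for `free` -/
def frs (x : ℕ) (n : ℕ) (b1 b2 : Bool) : Bool :=
  cond (eb (tg n) 2 || eb (tg n) 4) (eb x (c1 n) || eb x (c2 n))
    (cond (eb (tg n) 3) (eb x (ar n))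
      (cond (eb (tg n) 5 || eb (tg n) 6) (eb x (c1 n) || (eb x (u1 (c2 n)) || eb x (u2 (c2 n))))
        (cond (eb (tg n) 7) (eb x (u1 (c2 n)) || (eb x (u1 (u2 (c2 n))) ||
          (eb x (u1 (u2 (u2 (c2 n)))) || eb x (u2 (u2 (u2 (c2 n)))))))
          (cond (eb (tg n) 8) (b1 || b2)
            (cond (eb (tg n) 9) ((! eb x (c1 n)) && b2) false)))))

/-- free occurrence -/
def fr (x n : ℕ) : Bool := fold frs x n

theorem fr_primrec : Primrec₂ fr := fold_primrec frs (by unfold frs; repeat' (with_reducible (first | assumption | exact p_var | apply p_cond | apply p_and | apply p_or | apply p_not | apply p_eb | apply p_tg | apply p_ar | apply p_c1 | apply p_c2 | apply p_u1 | apply p_u2 | apply p_pair | apply p_fst | apply p_snd | exact Primrec.const _)))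

theorem p_fr {β : Type} [Primcodable β] {f g : β → ℕ} (hf : Primrec f) (hg : Primrec g) :
    Primrec fun x => fr (f x) (g x) := fr_primrec.comp hf hg

theorem fr_gn (x : ℕ) : ∀ φ : Fml, fr x (gn φ) = true ↔ φ.Free x := by
  intro φ
  induction φ with
  | bot => unfold fr gn; rw [fold]; simp [frs, eb, Fm.Free]
  | eq u v => unfold fr gn; rw [fold]; simp [frs, eb, Fm.Free]
  | zero u => unfold fr gn; rw [fold]; simp [frs, eb, Fm.Free]
  | succ u v => unfold fr gn; rw [fold]; simp [frs, eb, Fm.Free]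
  | add u v w => unfold fr gn; rw [fold]; simp [frs, eb, Fm.Free]
  | mul u v w => unfold fr gn; rw [fold]; simp [frs, eb, Fm.Free]
  | op i a b c d => unfold fr gn; rw [fold]; simp [frs, eb, Fm.Free]
  | imp φ ψ ih1 ih2 =>
    unfold fr at *
    rw [gn, fold_pair _ _ (by norm_num)]
    simp [frs, eb, Fm.Free, ih1, ih2]
  | all u φ ih =>
    unfold fr at *
    rw [gn, fold_pair _ _ (by norm_num)]
    simp [frs, eb, Fm.Free, ih]

/-- renaming -/
def rn (x y u : ℕ) : ℕ := cond (eb u x) y u

theorem rn_eq (x y u : ℕ) : rn x y u = Form.ren x y u := by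
  unfold rn Form.ren eb
  by_cases h : u = x <;> simp [h]

theorem p_rn {β : Type} [Primcodable β] {f g h : β → ℕ} (hf : Primrec f) (hg : Primrec g)
    (hh : Primrec h) : Primrec fun x => rn (f x) (g x) (h x) := by
  unfold rn
  exact p_cond (p_eb hh hf) hg hh

/-- step for `sb` -/
def sbs (p : ℕ × ℕ) (n : ℕ) (b1 b2 : ℕ) : ℕ :=
  cond (eb (tg n) 2 || eb (tg n) 4)
      (Nat.pair (tg n) (Nat.pair (rn p.1 p.2 (c1 n)) (rn p.1 p.2 (c2 n))))
    (cond (eb (tg n) 3) (Nat.pair (tg n) (rn p.1 p.2 (ar n)))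
      (cond (eb (tg n) 5 || eb (tg n) 6) (Nat.pair (tg n) (Nat.pair (rn p.1 p.2 (c1 n))
          (Nat.pair (rn p.1 p.2 (u1 (c2 n))) (rn p.1 p.2 (u2 (c2 n))))))
        (cond (eb (tg n) 7) (Nat.pair (tg n) (Nat.pair (c1 n) (Nat.pair (rn p.1 p.2 (u1 (c2 n)))
            (Nat.pair (rn p.1 p.2 (u1 (u2 (c2 n))))
              (Nat.pair (rn p.1 p.2 (u1 (u2 (u2 (c2 n))))) (rn p.1 p.2 (u2 (u2 (u2 (c2 n))))))))))
          (cond (eb (tg n) 8) (Nat.pair 8 (Nat.pair b1 b2))
            (cond (eb (tg n) 9) (cond (eb (c1 n) p.1) n (Nat.pair 9 (Nat.pair (c1 n) b2))) n)))))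

/-- substitution -/
def sb (x y n : ℕ) : ℕ := fold sbs (x, y) n

theorem sb_primrec : Primrec₂ (fold sbs) := fold_primrec sbs (by
  unfold sbs
  repeat' (first | with_reducible apply p_rn | with_reducible apply p_cond |
    with_reducible apply p_pair | repeat' (with_reducible (first | assumption | exact p_var | apply p_cond | apply p_and | apply p_or | apply p_not | apply p_eb | apply p_tg | apply p_ar | apply p_c1 | apply p_c2 | apply p_u1 | apply p_u2 | apply p_pair | apply p_fst | apply p_snd | exact Primrec.const _))))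

theorem p_sb {β : Type} [Primcodable β] {f g h : β → ℕ} (hf : Primrec f) (hg : Primrec g)
    (hh : Primrec h) : Primrec fun x => sb (f x) (g x) (h x) :=
  sb_primrec.comp (p_mk hf hg) hh

theorem sb_gn (x y : ℕ) : ∀ φ : Fml, sb x y (gn φ) = gn (φ.subst x y) := by
  intro φ
  induction φ with
  | bot => unfold sb; rw [gn, fold]; simp [sbs, eb, Fm.subst, gn]
  | eq u v => unfold sb; rw [gn, fold]; simp [sbs, eb, Fm.subst, gn, rn_eq]
  | zero u => unfold sb; rw [gn, fold]; simp [sbs, eb, Fm.subst, gn, rn_eq]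
  | succ u v => unfold sb; rw [gn, fold]; simp [sbs, eb, Fm.subst, gn, rn_eq]
  | add u v w => unfold sb; rw [gn, fold]; simp [sbs, eb, Fm.subst, gn, rn_eq]
  | mul u v w => unfold sb; rw [gn, fold]; simp [sbs, eb, Fm.subst, gn, rn_eq]
  | op i a b c d => unfold sb; rw [gn, fold]; simp [sbs, eb, Fm.subst, gn, rn_eq]
  | imp φ ψ ih1 ih2 =>
    unfold sb at *
    rw [gn, fold_pair _ _ (by norm_num)]
    simp [sbs, eb, Fm.subst, ih1, ih2, gn]
  | all u φ ih =>
    unfold sb at *
    rw [gn, fold_pair _ _ (by norm_num)]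
    by_cases h : u = x
    · simp [sbs, eb, Fm.subst, gn, h]
    · simp [sbs, eb, Fm.subst, ih, gn, h]

/-- step for `ff` -/
def ffs (p : ℕ × ℕ) (n : ℕ) (b1 b2 : Bool) : Bool :=
  cond (eb (tg n) 8) (b1 && b2)
    (cond (eb (tg n) 9) (eb (c1 n) p.2 || ((! fr p.2 (c2 n)) || ((! eb (c1 n) p.1) && b2))) true)

/-- `ff y x n`: `y` is free for `x` -/
def ff (y x n : ℕ) : Bool := fold ffs (y, x) n

theorem ff_primrec : Primrec₂ (fold ffs) := fold_primrec ffs (by
  unfold ffs
  repeat' (first | with_reducible apply p_fr | with_reducible apply p_cond |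
    with_reducible apply p_and | with_reducible apply p_or | with_reducible apply p_not | repeat' (with_reducible (first | assumption | exact p_var | apply p_cond | apply p_and | apply p_or | apply p_not | apply p_eb | apply p_tg | apply p_ar | apply p_c1 | apply p_c2 | apply p_u1 | apply p_u2 | apply p_pair | apply p_fst | apply p_snd | exact Primrec.const _))))

theorem p_ff {β : Type} [Primcodable β] {f g h : β → ℕ} (hf : Primrec f) (hg : Primrec g)
    (hh : Primrec h) : Primrec fun x => ff (f x) (g x) (h x) :=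
  ff_primrec.comp (p_mk hf hg) hh

theorem ff_gn (y x : ℕ) : ∀ φ : Fml, ff y x (gn φ) = true ↔ φ.FreeFor y x := by
  intro φ
  induction φ with
  | bot => unfold ff; rw [gn, fold]; simp [ffs, eb, Fm.FreeFor]
  | eq u v => unfold ff; rw [gn, fold]; simp [ffs, eb, Fm.FreeFor]
  | zero u => unfold ff; rw [gn, fold]; simp [ffs, eb, Fm.FreeFor]
  | succ u v => unfold ff; rw [gn, fold]; simp [ffs, eb, Fm.FreeFor]
  | add u v w => unfold ff; rw [gn, fold]; simp [ffs, eb, Fm.FreeFor]
  | mul u v w => unfold ff; rw [gn, fold]; simp [ffs, eb, Fm.FreeFor]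
  | op i a b c d => unfold ff; rw [gn, fold]; simp [ffs, eb, Fm.FreeFor]
  | imp φ ψ ih1 ih2 =>
    unfold ff at *
    rw [gn, fold_pair _ _ (by norm_num)]
    simp [ffs, eb, Fm.FreeFor, ih1, ih2]
  | all u φ ih =>
    unfold ff at *
    rw [gn, fold_pair _ _ (by norm_num)]
    have h1 := fr_gn x φ
    by_cases h : φ.Free x
    · rw [← h1] at h
      simp [ffs, eb, Fm.FreeFor, ih, h, h1.1 h]
    · have h2 : fr x (gn φ) = false := by
        rw [← h1] at h
        simpa using h
      simp [ffs, eb, Fm.FreeFor, h, h2]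


/-! ### Replacement in atomic formulas -/

/-- `u'` is `u`, or `u` is `x` and `u'` is `y` -/
def sw (x y u u' : ℕ) : Bool := eb u' u || (eb u x && eb u' y)

theorem sw_iff (x y u u' : ℕ) : sw x y u u' = true ↔ Sw x y u u' := by
  unfold sw Sw
  simp

theorem p_sw {β : Type} [Primcodable β] {f g h k : β → ℕ} (hf : Primrec f) (hg : Primrec g)
    (hh : Primrec h) (hk : Primrec k) : Primrec fun x => sw (f x) (g x) (h x) (k x) := by
  unfold sw
  exact p_or (p_eb hk hh) (p_and (p_eb hh hf) (p_eb hk hg))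

/-- `ReplK` on Gödel numbers -/
def rp (x y m n : ℕ) : Bool :=
  eb (tg m) (tg n) &&
    cond (eb (tg n) 2 || eb (tg n) 4) (sw x y (c1 m) (c1 n) && sw x y (c2 m) (c2 n))
    (cond (eb (tg n) 3) (sw x y (ar m) (ar n))
      (cond (eb (tg n) 5 || eb (tg n) 6) (sw x y (c1 m) (c1 n) &&
          (sw x y (u1 (c2 m)) (u1 (c2 n)) && sw x y (u2 (c2 m)) (u2 (c2 n))))
        (cond (eb (tg n) 7) (eb (c1 m) (c1 n) && (sw x y (u1 (c2 m)) (u1 (c2 n)) &&
            (sw x y (u1 (u2 (c2 m))) (u1 (u2 (c2 n))) &&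
              (sw x y (u1 (u2 (u2 (c2 m)))) (u1 (u2 (u2 (c2 n)))) &&
                sw x y (u2 (u2 (u2 (c2 m)))) (u2 (u2 (u2 (c2 n))))))))
          false)))

theorem p_rp {β : Type} [Primcodable β] {f g h k : β → ℕ} (hf : Primrec f) (hg : Primrec g)
    (hh : Primrec h) (hk : Primrec k) : Primrec fun x => rp (f x) (g x) (h x) (k x) := by
  unfold rp
  repeat' (first | with_reducible assumption | with_reducible apply p_sw |
    with_reducible apply p_cond |
    with_reducible apply p_and | with_reducible apply p_or | repeat' (with_reducible (first | assumption | exact p_var | apply p_cond | apply p_and | apply p_or | apply p_not | apply p_eb | apply p_tg | apply p_ar | apply p_c1 | apply p_c2 | apply p_u1 | apply p_u2 | apply p_pair | apply p_fst | apply p_snd | exact Primrec.const _)))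

theorem rp_gn (x y : ℕ) (φ ψ : Fml) : rp x y (gn φ) (gn ψ) = true ↔ ReplK x y φ ψ := by
  constructor
  · intro h
    cases φ <;> cases ψ <;> simp [rp, gn, eb, sw_iff] at h
    · exact .eq h.1 h.2
    · exact .zero h
    · exact .succ h.1 h.2
    · exact .add h.1 h.2.1 h.2.2
    · exact .mul h.1 h.2.1 h.2.2
    · obtain ⟨h0, h1, h2, h3, h4⟩ := h
      subst h0
      exact .op h1 h2 h3 h4
  · intro h
    cases h with
    | eq h1 h2 => simp [rp, gn, eb, sw_iff, h1, h2]
    | zero h1 => simp [rp, gn, eb, sw_iff, h1]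
    | succ h1 h2 => simp [rp, gn, eb, sw_iff, h1, h2]
    | add h1 h2 h3 => simp [rp, gn, eb, sw_iff, h1, h2, h3]
    | mul h1 h2 h3 => simp [rp, gn, eb, sw_iff, h1, h2, h3]
    | op h1 h2 h3 h4 => simp [rp, gn, eb, sw_iff, h1, h2, h3, h4]

/-! ### The logical axioms -/

theorem gn_eq_imp {φ : Fml} {a b : ℕ} (h : gn φ = impN a b) :
    ∃ φ1 φ2, φ = .imp φ1 φ2 ∧ gn φ1 = a ∧ gn φ2 = b := by
  cases φ <;> simp [gn, impN, Nat.pair_eq_pair] at h
  exact ⟨_, _, rfl, h.1, h.2⟩

theorem gn_eq_all {φ : Fml} {a b : ℕ} (h : gn φ = allN a b) :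
    ∃ φ1, φ = .all a φ1 ∧ gn φ1 = b := by
  cases φ <;> simp [gn, allN, Nat.pair_eq_pair] at h
  obtain ⟨rfl, h⟩ := h
  exact ⟨_, rfl, h⟩

theorem gn_eq_eq {φ : Fml} {a b : ℕ} (h : gn φ = Nat.pair 2 (Nat.pair a b)) : φ = .eq a b := by
  cases φ <;> simp [gn, Nat.pair_eq_pair] at h
  rw [h.1, h.2]

theorem gn_eq_bot {φ : Fml} (h : gn φ = Nat.pair 1 0) : φ = .bot := by
  cases φ <;> simp [gn, Nat.pair_eq_pair] at h
  rfl

/-- the axioms `k` -/
def Lk (n : ℕ) : Bool := eb n (impN (c1 n) (impN (c1 (c2 n)) (c1 n)))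

/-- the axioms `s` -/
def Ls (n : ℕ) : Bool :=
  eb n (impN (impN (c1 (c1 n)) (impN (c1 (c2 (c1 n))) (c2 (c2 (c1 n)))))
    (impN (impN (c1 (c1 n)) (c1 (c2 (c1 n)))) (impN (c1 (c1 n)) (c2 (c2 (c1 n))))))

/-- the axioms `dn` -/
def Ld (n : ℕ) : Bool :=
  eb n (impN (impN (impN (c2 n) (Nat.pair 1 0)) (Nat.pair 1 0)) (c2 n))

/-- the axioms `inst`, for a given `y` -/
def Li (n y : ℕ) : Bool :=
  eb n (impN (allN (c1 (c1 n)) (c2 (c1 n))) (c2 n)) &&
    (ff y (c1 (c1 n)) (c2 (c1 n)) && eb (sb (c1 (c1 n)) y (c2 (c1 n))) (c2 n))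

/-- the axioms `dist` -/
def Lt (n : ℕ) : Bool :=
  eb n (impN (allN (c1 (c1 n)) (impN (c1 (c2 (c1 n))) (c2 (c2 (c1 n)))))
    (impN (c1 (c2 (c1 n))) (allN (c1 (c1 n)) (c2 (c2 (c1 n)))))) &&
    (! fr (c1 (c1 n)) (c1 (c2 (c1 n))))

/-- the axioms `refl` -/
def Lr (n : ℕ) : Bool := eb n (Nat.pair 2 (Nat.pair (c1 n) (c1 n)))

/-- the axioms `repl` -/
def Lp (n : ℕ) : Bool :=
  eb n (impN (Nat.pair 2 (Nat.pair (c1 (c1 n)) (c2 (c1 n)))) (impN (c1 (c2 n)) (c2 (c2 n)))) &&
    rp (c1 (c1 n)) (c2 (c1 n)) (c1 (c2 n)) (c2 (c2 n))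

/-- the logical axioms: a predicate -/
def LL (n : ℕ) : Prop :=
  isF n = true ∧ (Lk n = true ∨ Ls n = true ∨ Ld n = true ∨ (∃ y < n + 1, Li n y = true) ∨
    Lt n = true ∨ Lr n = true ∨ Lp n = true)


theorem bool_pred {β : Type} [Primcodable β] {f : β → Bool} (hf : Primrec f) :
    PrimrecPred fun x => f x = true :=
  Primrec.primrecPred (by simpa using hf)

theorem LL_primrec : PrimrecPred LL := by
  have hk : Primrec Lk := by unfold Lk; repeat' (with_reducible (first | assumption | exact p_var | apply p_cond | apply p_and | apply p_or | apply p_not | apply p_eb | apply p_impN | apply p_allN | apply p_fr | apply p_ff | apply p_sb | apply p_rp | apply p_tg | apply p_ar | apply p_c1 | apply p_c2 | apply p_u1 | apply p_u2 | apply p_pair | apply p_fst | apply p_snd | exact Primrec.const _))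
  have hs : Primrec Ls := by unfold Ls; repeat' (with_reducible (first | assumption | exact p_var | apply p_cond | apply p_and | apply p_or | apply p_not | apply p_eb | apply p_impN | apply p_allN | apply p_fr | apply p_ff | apply p_sb | apply p_rp | apply p_tg | apply p_ar | apply p_c1 | apply p_c2 | apply p_u1 | apply p_u2 | apply p_pair | apply p_fst | apply p_snd | exact Primrec.const _))
  have hd : Primrec Ld := by unfold Ld; repeat' (with_reducible (first | assumption | exact p_var | apply p_cond | apply p_and | apply p_or | apply p_not | apply p_eb | apply p_impN | apply p_allN | apply p_fr | apply p_ff | apply p_sb | apply p_rp | apply p_tg | apply p_ar | apply p_c1 | apply p_c2 | apply p_u1 | apply p_u2 | apply p_pair | apply p_fst | apply p_snd | exact Primrec.const _))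
  have hi : Primrec fun p : ℕ × ℕ => Li p.1 p.2 := by unfold Li; repeat' (with_reducible (first | assumption | exact p_var | apply p_cond | apply p_and | apply p_or | apply p_not | apply p_eb | apply p_impN | apply p_allN | apply p_fr | apply p_ff | apply p_sb | apply p_rp | apply p_tg | apply p_ar | apply p_c1 | apply p_c2 | apply p_u1 | apply p_u2 | apply p_pair | apply p_fst | apply p_snd | exact Primrec.const _))
  have ht : Primrec Lt := by unfold Lt; repeat' (with_reducible (first | assumption | exact p_var | apply p_cond | apply p_and | apply p_or | apply p_not | apply p_eb | apply p_impN | apply p_allN | apply p_fr | apply p_ff | apply p_sb | apply p_rp | apply p_tg | apply p_ar | apply p_c1 | apply p_c2 | apply p_u1 | apply p_u2 | apply p_pair | apply p_fst | apply p_snd | exact Primrec.const _))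
  have hr : Primrec Lr := by unfold Lr; repeat' (with_reducible (first | assumption | exact p_var | apply p_cond | apply p_and | apply p_or | apply p_not | apply p_eb | apply p_impN | apply p_allN | apply p_fr | apply p_ff | apply p_sb | apply p_rp | apply p_tg | apply p_ar | apply p_c1 | apply p_c2 | apply p_u1 | apply p_u2 | apply p_pair | apply p_fst | apply p_snd | exact Primrec.const _))
  have hp : Primrec Lp := by unfold Lp; repeat' (with_reducible (first | assumption | exact p_var | apply p_cond | apply p_and | apply p_or | apply p_not | apply p_eb | apply p_impN | apply p_allN | apply p_fr | apply p_ff | apply p_sb | apply p_rp | apply p_tg | apply p_ar | apply p_c1 | apply p_c2 | apply p_u1 | apply p_u2 | apply p_pair | apply p_fst | apply p_snd | exact Primrec.const _))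
  have hi2 : PrimrecRel fun y n : ℕ => Li n y = true :=
    bool_pred (hi.comp (Primrec.pair Primrec.snd Primrec.fst))
  have hi3 : PrimrecPred fun n : ℕ => ∃ y < n + 1, Li n y = true := by
    have h0 : PrimrecPred fun n : ℕ => ∃ y < Nat.succ n, Li (id n) y = true :=
      PrimrecRel.comp (R := fun n y => ∃ x < n, Li y x = true) hi2.exists_lt Primrec.succ
        Primrec.id
    exact h0
  exact (bool_pred isF_primrec).and ((bool_pred hk).or ((bool_pred hs).or ((bool_pred hd).or
    (hi3.or ((bool_pred ht).or ((bool_pred hr).or (bool_pred hp)))))))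


theorem free_le : ∀ (φ : Fml) (y : ℕ), φ.Free y → y ≤ gn φ := by
  intro φ y
  have hp : ∀ a b : ℕ, a ≤ Nat.pair a b := Nat.left_le_pair
  have hq : ∀ a b : ℕ, b ≤ Nat.pair a b := Nat.right_le_pair
  have pp : ∀ k a b : ℕ, a ≤ Nat.pair k (Nat.pair a b) := fun k a b => (hp a b).trans (hq _ _)
  have qq : ∀ k a b : ℕ, b ≤ Nat.pair k (Nat.pair a b) := fun k a b => (hq a b).trans (hq _ _)
  induction φ with
  | bot => intro h; exact h.elim
  | eq u v => rintro (rfl | rfl) <;> simp only [gn] <;> first | exact pp _ _ _ | exact qq _ _ _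
  | zero u => rintro rfl; exact hq _ _
  | succ u v => rintro (rfl | rfl) <;> simp only [gn] <;> first | exact pp _ _ _ | exact qq _ _ _
  | add u v w =>
    rintro (rfl | rfl | rfl)
    · exact pp _ _ _
    · exact (hp _ _).trans (qq _ _ _)
    · exact (hq _ _).trans (qq _ _ _)
  | mul u v w =>
    rintro (rfl | rfl | rfl)
    · exact pp _ _ _
    · exact (hp _ _).trans (qq _ _ _)
    · exact (hq _ _).trans (qq _ _ _)
  | op i a b c d =>
    rintro (rfl | rfl | rfl | rfl)
    · exact (hp _ _).trans (qq _ _ _)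
    · exact (pp _ _ _).trans (qq _ _ _)
    · exact (hp _ _).trans ((qq _ _ _).trans (qq _ _ _))
    · exact (hq _ _).trans ((qq _ _ _).trans (qq _ _ _))
  | imp φ ψ ih1 ih2 =>
    rintro (h | h)
    · exact (ih1 h).trans (pp _ _ _)
    · exact (ih2 h).trans (qq _ _ _)
  | all u φ ih =>
    rintro ⟨-, h⟩
    exact (ih h).trans (qq _ _ _)

theorem ren_not {x y u : ℕ} (h : u ≠ x) : Form.ren x y u = u := by simp [Form.ren, h]

theorem subst_not_free (x y : ℕ) : ∀ φ : Fml, ¬ φ.Free x → φ.subst x y = φ := by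
  intro φ
  induction φ with
  | bot => intro _; rfl
  | eq u v =>
    intro h
    simp only [Fm.Free, not_or] at h
    simp only [Fm.subst, ren_not (Ne.symm h.1), ren_not (Ne.symm h.2)]
  | zero u =>
    intro h
    simp only [Fm.Free] at h
    simp only [Fm.subst, ren_not (Ne.symm h)]
  | succ u v =>
    intro h
    simp only [Fm.Free, not_or] at h
    simp only [Fm.subst, ren_not (Ne.symm h.1), ren_not (Ne.symm h.2)]
  | add u v w =>
    intro h
    simp only [Fm.Free, not_or] at h
    simp only [Fm.subst, ren_not (Ne.symm h.1), ren_not (Ne.symm h.2.1), ren_not (Ne.symm h.2.2)]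
  | mul u v w =>
    intro h
    simp only [Fm.Free, not_or] at h
    simp only [Fm.subst, ren_not (Ne.symm h.1), ren_not (Ne.symm h.2.1), ren_not (Ne.symm h.2.2)]
  | op i a b c d =>
    intro h
    simp only [Fm.Free, not_or] at h
    simp only [Fm.subst, ren_not (Ne.symm h.1), ren_not (Ne.symm h.2.1),
      ren_not (Ne.symm h.2.2.1), ren_not (Ne.symm h.2.2.2)]
  | imp φ ψ ih1 ih2 =>
    intro h
    simp only [Fm.Free, not_or] at h
    simp only [Fm.subst, ih1 h.1, ih2 h.2]
  | all u φ ih =>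
    intro h
    simp only [Fm.Free, not_and] at h
    simp only [Fm.subst]
    split_ifs with hu
    · rfl
    · rw [ih (h (Ne.symm hu))]

theorem free_subst (x y : ℕ) : ∀ φ : Fml, φ.Free x → φ.FreeFor y x → (φ.subst x y).Free y := by
  intro φ
  have hr : ∀ u, x = u → y = Form.ren x y u := by rintro u rfl; simp [Form.ren]
  induction φ with
  | bot => intro h _; exact h.elim
  | eq u v =>
    intro h _
    simp only [Fm.Free, Fm.subst] at *
    rcases h with h | h
    · exact Or.inl (hr _ h)
    · exact Or.inr (hr _ h)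
  | zero u => intro h _; exact hr _ h
  | succ u v =>
    intro h _
    simp only [Fm.Free, Fm.subst] at *
    rcases h with h | h
    · exact Or.inl (hr _ h)
    · exact Or.inr (hr _ h)
  | add u v w =>
    intro h _
    simp only [Fm.Free, Fm.subst] at *
    rcases h with h | h | h
    · exact Or.inl (hr _ h)
    · exact Or.inr (Or.inl (hr _ h))
    · exact Or.inr (Or.inr (hr _ h))
  | mul u v w =>
    intro h _
    simp only [Fm.Free, Fm.subst] at *
    rcases h with h | h | h
    · exact Or.inl (hr _ h)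
    · exact Or.inr (Or.inl (hr _ h))
    · exact Or.inr (Or.inr (hr _ h))
  | op i a b c d =>
    intro h _
    simp only [Fm.Free, Fm.subst] at *
    rcases h with h | h | h | h
    · exact Or.inl (hr _ h)
    · exact Or.inr (Or.inl (hr _ h))
    · exact Or.inr (Or.inr (Or.inl (hr _ h)))
    · exact Or.inr (Or.inr (Or.inr (hr _ h)))
  | imp φ ψ ih1 ih2 =>
    intro h hf
    rcases h with h | h
    · exact Or.inl (ih1 h hf.1)
    · exact Or.inr (ih2 h hf.2)
  | all u φ ih =>
    intro h hf
    simp only [Fm.Free] at h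
    simp only [Fm.FreeFor] at hf
    rcases hf with rfl | hf | hf
    · exact absurd rfl h.1
    · exact absurd h.2 hf
    · have hu : u ≠ x := fun e => h.1 e.symm
      simp only [Fm.subst, if_neg hu]
      exact ⟨Ne.symm hf.1, ih h.2 hf.2⟩

theorem LL_iff (n : ℕ) : LL n ↔ ∃ φ : Fml, n = gn φ ∧ LogK φ := by
  constructor
  · rintro ⟨hF, h⟩
    obtain ⟨θ, rfl⟩ := isF_gn' n hF
    refine ⟨θ, rfl, ?_⟩
    rcases h with h | h | h | ⟨y, -, h⟩ | h | h | h
    · unfold Lk at h
      rw [eb_true] at h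
      obtain ⟨φ, θ2, rfl, h1, h2⟩ := gn_eq_imp h
      obtain ⟨ψ, φ', rfl, h3, h4⟩ := gn_eq_imp h2
      rw [← h1] at h4
      rw [gn_inj _ _ h4]
      exact .k _ _
    · unfold Ls at h
      rw [eb_true] at h
      obtain ⟨θ1, θ2, rfl, h1, h2⟩ := gn_eq_imp h
      obtain ⟨φ, θ3, rfl, h3, h4⟩ := gn_eq_imp h1
      obtain ⟨ψ, χ, rfl, h5, h6⟩ := gn_eq_imp h4
      obtain ⟨θ4, θ5, rfl, h7, h8⟩ := gn_eq_imp h2
      obtain ⟨φ', ψ', rfl, h9, h10⟩ := gn_eq_imp h7
      obtain ⟨φ'', χ', rfl, h11, h12⟩ := gn_eq_imp h8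
      rw [← h3] at h9 h11
      rw [← h5] at h10
      rw [← h6] at h12
      rw [gn_inj _ _ h9, gn_inj _ _ h10, gn_inj _ _ h11, gn_inj _ _ h12]
      exact .s _ _ _
    · unfold Ld at h
      rw [eb_true] at h
      obtain ⟨θ1, φ, rfl, h1, h2⟩ := gn_eq_imp h
      obtain ⟨θ2, b1, rfl, h3, h4⟩ := gn_eq_imp h1
      obtain ⟨φ', b2, rfl, h5, h6⟩ := gn_eq_imp h3
      rw [← h2] at h5
      rw [gn_inj _ _ h5, gn_eq_bot h4, gn_eq_bot h6]
      exact .dn _
    · unfold Li at h
      rw [Bool.and_eq_true, Bool.and_eq_true, eb_true, eb_true] at h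
      obtain ⟨h, hf, hs⟩ := h
      generalize c1 (c1 (gn θ)) = x at h hf hs
      generalize c2 (c1 (gn θ)) = a at h hf hs
      generalize c2 (gn θ) = b at h hs
      obtain ⟨θ1, ψ, rfl, h1, h2⟩ := gn_eq_imp h
      obtain ⟨φ, rfl, h3⟩ := gn_eq_all h1
      rw [← h3] at hf hs
      rw [ff_gn] at hf
      rw [sb_gn, ← h2] at hs
      rw [← gn_inj _ _ hs]
      exact .inst _ _ _ hf
    · unfold Lt at h
      rw [Bool.and_eq_true, eb_true, Bool.not_eq_true'] at h
      obtain ⟨h, hf⟩ := h
      generalize c1 (c1 (gn θ)) = x at h hf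
      generalize c1 (c2 (c1 (gn θ))) = a at h hf
      generalize c2 (c2 (c1 (gn θ))) = b at h
      obtain ⟨θ1, θ2, rfl, h1, h2⟩ := gn_eq_imp h
      obtain ⟨θ3, rfl, h3⟩ := gn_eq_all h1
      obtain ⟨φ, ψ, rfl, h4, h5⟩ := gn_eq_imp h3
      obtain ⟨φ', θ4, rfl, h6, h7⟩ := gn_eq_imp h2
      obtain ⟨ψ', rfl, h8⟩ := gn_eq_all h7
      rw [← h4] at h6 hf
      rw [← h5] at h8
      rw [gn_inj _ _ h6, gn_inj _ _ h8]
      refine .dist _ _ _ fun hx => ?_
      rw [(fr_gn _ _).2 hx] at hf
      exact Bool.noConfusion hf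
    · unfold Lr at h
      rw [eb_true] at h
      rw [gn_eq_eq h]
      exact .refl _
    · unfold Lp at h
      rw [Bool.and_eq_true, eb_true] at h
      obtain ⟨h, hr⟩ := h
      obtain ⟨θ1, θ2, rfl, h1, h2⟩ := gn_eq_imp h
      obtain ⟨φ, ψ, rfl, h3, h4⟩ := gn_eq_imp h2
      rw [gn_eq_eq h1]
      rw [← h3, ← h4, rp_gn] at hr
      exact .repl _ _ _ _ hr
  · rintro ⟨θ, rfl, h⟩
    refine ⟨isF_gn θ, ?_⟩
    cases h with
    | k φ ψ => exact Or.inl (by simp [Lk, gn, impN])
    | s φ ψ χ => exact Or.inr (Or.inl (by simp [Ls, gn, impN]))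
    | dn φ => exact Or.inr (Or.inr (Or.inl (by simp [Ld, gn, impN, Fm.neg])))
    | inst x y φ hf =>
      refine Or.inr (Or.inr (Or.inr (Or.inl ?_)))
      by_cases hx : φ.Free x
      · refine ⟨y, ?_, ?_⟩
        · have h1 := free_le _ _ (free_subst x y φ hx hf)
          have h2 : gn (φ.subst x y) ≤ gn ((Fm.all x φ).imp (φ.subst x y)) :=
            (Nat.right_le_pair _ _).trans (Nat.right_le_pair _ _)
          omega
        · have h3 := (ff_gn y x φ).2 hf
          have h4 := sb_gn x y φ
          simp [Li, gn, impN, allN, h3, h4]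
      · refine ⟨0, Nat.succ_pos _, ?_⟩
        have h0 : ∀ φ : Fml, ¬ φ.Free x → φ.FreeFor 0 x := by
          intro φ
          induction φ with
          | imp φ ψ ih1 ih2 =>
            intro h
            simp only [Fm.Free, not_or] at h
            exact ⟨ih1 h.1, ih2 h.2⟩
          | all u φ ih =>
            intro h
            simp only [Fm.Free, not_and] at h
            by_cases hu : u = x
            · exact Or.inl hu
            · exact Or.inr (Or.inl (h (Ne.symm hu)))
          | _ => intro _; trivial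
        have h3 := (ff_gn 0 x φ).2 (h0 φ hx)
        have h4 := sb_gn x 0 φ
        rw [subst_not_free x 0 φ hx] at h4
        rw [subst_not_free x y φ hx]
        simp [Li, gn, impN, allN, h3, h4]
    | dist x φ ψ hx =>
      refine Or.inr (Or.inr (Or.inr (Or.inr (Or.inl ?_))))
      have h1 : fr x (gn φ) = false := by
        rw [← fr_gn] at hx
        simpa using hx
      simp [Lt, gn, impN, allN, h1]
    | refl x =>
      refine Or.inr (Or.inr (Or.inr (Or.inr (Or.inr (Or.inl ?_)))))
      simp [Lr, gn]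
    | repl x y φ ψ hr =>
      refine Or.inr (Or.inr (Or.inr (Or.inr (Or.inr (Or.inr ?_)))))
      have h1 := (rp_gn x y φ ψ).2 hr
      simp [Lp, gn, impN, h1]

/-- The logical axioms are a primitive recursive set of Gödel numbers. -/
theorem gnLog : GnLog := by
  classical
  obtain ⟨_, h⟩ := LL_primrec
  refine ⟨fun n => decide (LL n), h, fun n => ?_⟩
  rw [decide_eq_true_eq]
  exact LL_iff n

end Pool.Agent.TH955.J1547
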