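import Mathlib
import Pool.Agent.TH202.FlRes
import Pool.Agent.TH202.RL
import Pool.Agent.TH202.Cen
import Pool.Agent.TH828.FL_RA
import Pool.Agent.TH592.FL_IR
import Pool.Agent.TH75.FL_PAIR
import Pool.Agent.TH142.FL_PRIME
import Pool.Agent.TH377.FL_TOT
import Pool.Agent.TH111.FL_PM
import Pool.Agent.TH828.FL_SMF

set_option autoImplicit false

namespace Pool.Agent.TH955.FL_PO

open Pool.Agent.H436R3.Fol Pool.Agent.TH202 MvPolynomial
open Pool.Agent.TH828.FL_RA Pool.Agent.TH592.FL_IR Pool.Agent.TH75.FL_PAIR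
open Pool.Agent.TH142.FL_PRIME Pool.Agent.TH377.FL_TOT Pool.Agent.TH111.FL_PM
open Pool.Agent.TH828.FL_SMF

section aux

variable {K : Type} [Field K] [Algebra ℂ K]

theorem RA_one {w : DVal K} {S : Set K} : RA w S 1 := by
  have := RA_const (w := w) (S := S) 1
  rwa [map_one] at this

theorem RA_div {w : DVal K} {S : Set K} {f g : K} (hf : RA w S f) (hg : RA w S g⁻¹) :
    RA w S (f / g) := by
  rw [div_eq_mul_inv]
  exact RA_mul hf hg

/-- The ratios of the linear system `1, y, l`. -/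
theorem rat3 {w : DVal K} {S : Set K} {y l : K} (hy : y ≠ 0) (hl : l ≠ 0) (hl0 : 0 ≤ w.ord l)
    (hlS : RA w S l) (h1 : 0 ≤ w.ord y → RA w S y) (h2 : w.ord y ≤ 0 → RA w S y⁻¹)
    (i : Fin (2 + 1)) (hreg : ∀ j : Fin (2 + 1), w.Reg ((![1, y, l] : Fin (2 + 1) → K) j /
      (![1, y, l] : Fin (2 + 1) → K) i)) (j : Fin (2 + 1)) :
    RA w S ((![1, y, l] : Fin (2 + 1) → K) j / (![1, y, l] : Fin (2 + 1) → K) i) := by
  have hi : i = 0 ∨ i = 1 ∨ i = 2 := by
    fin_cases i <;> simp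
  rcases hi with rfl | rfl | rfl
  · have r1 : w.Reg y := by
      have := hreg 1
      simpa using this
    have r1' := h1 (r1.resolve_left hy)
    fin_cases j
    · simpa using RA_one
    · simpa using r1'
    · simpa using hlS
  · have r1 : w.Reg y⁻¹ := by
      have := hreg 0
      simpa using this
    have r2 := r1.resolve_left (inv_ne_zero hy)
    rw [w.ord_inv hy] at r2
    have r3 := h2 (by omega)
    fin_cases j
    · simpa using r3
    · have : y / y = 1 := div_self hy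
      simpa [this] using RA_one
    · simpa using RA_div hlS r3
  · have r1 : w.Reg l⁻¹ := by
      have := hreg 0
      simpa using this
    have r2 := r1.resolve_left (inv_ne_zero hl)
    rw [w.ord_inv hl] at r2
    have hl1 : w.ord l = 0 := by omega
    have r3 := RA_inv hl hlS hl1
    have r4 : w.Reg (y / l) := by
      have := hreg 1
      simpa using this
    have r5 := r4.resolve_left (div_ne_zero hy hl)
    rw [w.ord_div hy hl] at r5
    have r6 := h1 (by omega)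
    fin_cases j
    · simpa using r3
    · simpa using RA_div r6 r3
    · have : l / l = 1 := div_self hl
      simpa [this] using RA_one

/-- The ratios of the linear system `1, l`. -/
theorem rat2 {w : DVal K} {S : Set K} {l : K} (hl : l ≠ 0) (hl0 : 0 ≤ w.ord l)
    (hlS : RA w S l)
    (i : Fin (1 + 1)) (hreg : ∀ j : Fin (1 + 1), w.Reg ((![1, l] : Fin (1 + 1) → K) j /
      (![1, l] : Fin (1 + 1) → K) i)) (j : Fin (1 + 1)) :
    RA w S ((![1, l] : Fin (1 + 1) → K) j / (![1, l] : Fin (1 + 1) → K) i) := by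
  have hi : i = 0 ∨ i = 1 := by
    fin_cases i <;> simp
  rcases hi with rfl | rfl
  · fin_cases j
    · simpa using RA_one
    · simpa using hlS
  · have r1 : w.Reg l⁻¹ := by
      have := hreg 0
      simpa using this
    have r2 := r1.resolve_left (inv_ne_zero hl)
    rw [w.ord_inv hl] at r2
    have hl1 : w.ord l = 0 := by omega
    have r3 := RA_inv hl hlS hl1
    fin_cases j
    · simpa using r3
    · have : l / l = 1 := div_self hl
      simpa [this] using RA_one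

/-- Ratios of a product of linear systems. -/
theorem pm_RA {w : DVal K} {S : Set K} {m n : ℕ} {f : Fin (m + 1) → K} {g : Fin (n + 1) → K}
    (hf : ∀ j, f j ≠ 0) (hg : ∀ j, g j ≠ 0) (l : Fin ((m + 1) * n + m + 1))
    (hreg : ∀ l', w.Reg (pm f g l' / pm f g l))
    (Hf : ∀ i, (∀ i', w.Reg (f i' / f i)) → ∀ i', RA w S (f i' / f i))
    (Hg : ∀ i, (∀ i', w.Reg (g i' / g i)) → ∀ i', RA w S (g i' / g i)) :
    ∀ l', RA w S (pm f g l' / pm f g l) := by
  obtain ⟨i, j, h0, h1, h2⟩ := pm_ratio hf hg l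
  have k1 := Hf i fun i' => by
    obtain ⟨l', hl'⟩ := h1 i'
    rw [← hl']
    exact hreg l'
  have k2 := Hg j fun i' => by
    obtain ⟨l', hl'⟩ := h2 i'
    rw [← hl']
    exact hreg l'
  intro l'
  obtain ⟨i', j', h'⟩ := pm_form f g l'
  have e : pm f g l' / pm f g l = (f i' / f i) * (g j' / g j) := by
    rw [h', h0, mul_div_mul_comm]
  rw [e]
  exact RA_mul (k1 i') (k2 j')

end aux

/-- `Sb` vanishes where `c` has no zero. -/
theorem Sb_zero {K : Type} [Field K] [Algebra ℂ K] {d : Dat K} {w : DVal K} (hc : w.ord d.c ≤ 0) : Sb d w = 0 := by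
  have h1 : ps (w.ord d.c) = 0 := by
    unfold ps
    apply max_eq_left
    exact_mod_cast hc
  have h2 : mn d w = 0 := by
    unfold mn
    apply max_eq_left
    refine (min_le_right _ _).trans ((min_le_right _ _).trans ?_)
    exact_mod_cast hc
  unfold Sb
  rw [h1, h2, sub_zero]

variable {K : Type} [Field K] [Algebra ℂ K] [Algebra.EssFiniteType ℂ K]

/-- At a pole of `y_j` the function `y_{j+1}` is not constant. -/
theorem pole_next {d : Dat K} (h : XiAlg d) (s : Sq d) (hfil : FilV s) (j : ℕ) (hj : 1 ≤ j)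
    (w : DVal K) (hw : IsPrimeOn (Xd d h) w) (hc : w.ord d.c ≤ 0) (hp : w.ord (s.y j) < 0) :
    Ind2 w (s.y (j + 1)) d.c ∧ 0 ≤ w.ord (s.y (j + 2)) := by
  have hc0 := d.c_ne
  have hl0 : d.c⁻¹ ≠ 0 := inv_ne_zero hc0
  have hl : 0 ≤ w.ord d.c⁻¹ := by
    rw [w.ord_inv hc0]
    omega
  have hy0 := s.y_ne j
  have hy1 := s.y_ne (j + 1)
  have hy2 := s.y_ne (j + 2)
  -- the free systems
  have hfree : IsFree (M2 s j hj) (sys2 s j) := free_ξ (M2 s j hj)
  have hfree1 := (free_pm (pm_ne (e3_ne s j) (e3_ne s (j + 1))) (e2_ne d)).1 hfree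
  have hfree2 := (free_pm (e3_ne s j) (e3_ne s (j + 1))).1 hfree1.1
  have hpr : IsPrimeOn (M2 s j hj) w :=
    small_from h s hfil j hj hfree2.1 hfree2.2 hfree1.2 w hw (Sb_zero hc)
  obtain ⟨i, hi⟩ := hpr
  -- the element `t`
  obtain ⟨t, htreg, ht, ht'⟩ : ∃ t : K, w.Reg t ∧ (t = s.y (j + 1) ∨ t = (s.y (j + 1))⁻¹) ∧
      ∀ S : Set K, t ∈ S → (0 ≤ w.ord (s.y (j + 1)) → RA w S (s.y (j + 1))) ∧
        (w.ord (s.y (j + 1)) ≤ 0 → RA w S (s.y (j + 1))⁻¹) := by
    by_cases hreg : 0 ≤ w.ord (s.y (j + 1))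
    · refine ⟨s.y (j + 1), Or.inr hreg, Or.inl rfl, fun S hS => ⟨fun _ => RA_mem (Or.inr hreg) hS,
        fun h2 => RA_inv hy1 (RA_mem (Or.inr hreg) hS) (by omega)⟩⟩
    · have hreg' : w.Reg (s.y (j + 1))⁻¹ := by
        right
        rw [w.ord_inv hy1]
        omega
      exact ⟨(s.y (j + 1))⁻¹, hreg', Or.inr rfl, fun S hS => ⟨fun h1 => absurd h1 hreg,
        fun _ => RA_mem hreg' hS⟩⟩
  set S : Set K := {t, d.c⁻¹} with hSdef
  have htS : t ∈ S := by simp [hSdef]
  have hlS : d.c⁻¹ ∈ S := by simp [hSdef]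
  have hSreg : ∀ x ∈ S, w.Reg x := by
    intro x hx
    rcases hx with rfl | hx
    · exact htreg
    · rw [Set.mem_singleton_iff] at hx
      rw [hx]
      exact Or.inr hl
  obtain ⟨hy1S, hy1S'⟩ := ht' S htS
  have hlRA : RA w S d.c⁻¹ := RA_mem (Or.inr hl) hlS
  have R0 : ∀ i, (∀ i', w.Reg (e3 s j i' / e3 s j i)) → ∀ i', RA w S (e3 s j i' / e3 s j i) := by
    intro i hreg i'
    exact rat3 hy0 hl0 hl hlRA (fun h1 => absurd h1 (by omega))
      (fun _ => RA_pos (Or.inr (by rw [w.ord_inv hy0]; omega))) i hreg i'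
  have R1 : ∀ i, (∀ i', w.Reg (e3 s (j + 1) i' / e3 s (j + 1) i)) →
      ∀ i', RA w S (e3 s (j + 1) i' / e3 s (j + 1) i) := by
    intro i hreg i'
    exact rat3 hy1 hl0 hl hlRA hy1S hy1S' i hreg i'
  have R2 : ∀ i, (∀ i', w.Reg (e2 d i' / e2 d i)) → ∀ i', RA w S (e2 d i' / e2 d i) := by
    intro i hreg i'
    exact rat2 hl0 hl hlRA i hreg i'
  have hreg : ∀ l', w.Reg (sys2 s j l' / sys2 s j i) := fun l' =>
    hi.1 _ (ratio_mem_R (M2 s j hj) i l')
  have Rall : ∀ l', RA w S (sys2 s j l' / sys2 s j i) :=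
    pm_RA (pm_ne (e3_ne s j) (e3_ne s (j + 1))) (e2_ne d) i hreg
      (fun i hreg => pm_RA (e3_ne s j) (e3_ne s (j + 1)) i hreg R0 R1) R2
  have hw' : IsLocalRing' (ICs (Set.range fun l' => sys2 s j l' / sys2 s j i)) w := hi
  have hT : ∀ x ∈ Set.range (fun l' => sys2 s j l' / sys2 s j i), RA w S x := by
    rintro _ ⟨l', rfl⟩
    exact Rall l'
  obtain ⟨f, g, hfg⟩ := exists_pair (trdeg_eq d) _ (Set.finite_range _) (sys2_alg s hj i) w hw'
  obtain ⟨f', hf', g', hg', hfg'⟩ := ind2_of_RA hSreg hfg (RA_all hT hw' hfg.1)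
    (RA_all hT hw' hfg.2.1)
  have hne := (ind2_ne hfg').2.2.2.2
  have htl : Ind2 w t d.c⁻¹ := by
    rcases hf' with rfl | hf'
    · rcases hg' with rfl | hg'
      · exact absurd rfl hne
      · rw [Set.mem_singleton_iff] at hg'
        rwa [hg'] at hfg'
    · rw [Set.mem_singleton_iff] at hf'
      rcases hg' with rfl | hg'
      · rw [hf'] at hfg'
        exact ind2_symm hfg'
      · rw [Set.mem_singleton_iff] at hg'
        exact absurd (hf'.trans hg'.symm) hne
  have h3 : Ind2 w t d.c := by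
    have := ind2_inv (ind2_symm htl)
    rw [inv_inv] at this
    exact ind2_symm this
  have hmain : Ind2 w (s.y (j + 1)) d.c := by
    rcases ht with rfl | rfl
    · exact h3
    · have := ind2_inv h3
      rwa [inv_inv] at this
  refine ⟨hmain, ?_⟩
  have hord := (ind2_ne hmain).2.2.1
  by_contra hneg
  push Not at hneg
  obtain ⟨e, he0, hepos, he1, he2⟩ : ∃ e : K, e ≠ 0 ∧ 0 < w.ord e ∧
      w.ord e ≤ w.ord (s.y j)⁻¹ ∧ w.ord e ≤ w.ord (s.y (j + 2))⁻¹ := by
    have a1 := w.ord_inv hy0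
    have a2 := w.ord_inv hy2
    rcases le_total (w.ord (s.y j)⁻¹) (w.ord (s.y (j + 2))⁻¹) with hle | hle
    · exact ⟨_, inv_ne_zero hy0, by omega, le_rfl, hle⟩
    · exact ⟨_, inv_ne_zero hy2, by omega, hle, le_rfl⟩
  have hemem : e ∈ VS w := mem_VS.2 (Or.inr hepos.le)
  have hemem' : e⁻¹ ∉ VS w := by
    intro hmem
    have := (mem_VS.1 hmem).resolve_left (inv_ne_zero he0)
    rw [w.ord_inv he0] at this
    omega
  have key : ∀ y : K, y ≠ 0 → ((y⁻¹ * e⁻¹ ∈ VS w) ↔ 0 ≤ w.ord y⁻¹ - w.ord e) := by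
    intro y hy
    have e1 : w.ord (y⁻¹ * e⁻¹) = w.ord y⁻¹ - w.ord e := by
      rw [w.map_mul _ _ (inv_ne_zero hy) (inv_ne_zero he0), w.ord_inv he0]
      ring
    rw [mem_VS, ← e1]
    constructor
    · intro hh
      exact hh.resolve_left (mul_ne_zero (inv_ne_zero hy) (inv_ne_zero he0))
    · exact fun hh => Or.inr hh
  have h5 := (hfil (VS w) (fun z => mem_VS.2 (w.reg_const z)) e he0 hemem hemem' j hj).2.2
    ((key _ hy0).2 (by omega)) ((key _ hy2).2 (by omega))
  have h6 := (key _ hy1).1 h5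
  rw [w.ord_inv hy1] at h6
  omega

theorem pole_same {d : Dat K} (h : XiAlg d) (s : Sq d) (hfil : FilV s)
    (hgen : ∀ k, 1 ≤ k → GenAt s k) (j : ℕ) (hj : 1 ≤ j) (w w' : DVal K)
    (hw : IsPrimeOn (Xd d h) w) (hc : w.ord d.c ≤ 0) (hp : w.ord (s.y j) < 0)
    (hw' : IsPrimeOn (Xd d h) w') (hc' : w'.ord d.c ≤ 0) (hp' : w'.ord (s.y j) < 0) :
    Same w w' := by
  obtain ⟨r, hr, gen⟩ := hgen j hj
  have e : ({s.y (j + 1), s.y j, d.c} : Set K) = {s.y j, s.y (j + 1), d.c} := Set.insert_comm _ _ _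
  rw [e] at gen
  exact tot gen (Or.inl hr) hp hp' (pole_next h s hfil j hj w hw hc hp).1
    (pole_next h s hfil j hj w' hw' hc' hp').1

end Pool.Agent.TH955.FL_PO
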